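import Pool.Agent.TH53.PC2

/-!
# A total clone on five elements with a countably infinite strong interval

Disproof of Q1 of MP_0340c4_al: there is a total clone `C` on a five element set for which the
intervals `I_D(C)` and `I_Str(C)` are neither both finite nor both of cardinality continuum.
Deduced from the starting library `Pool.Agent.TH53.PC` (frozen statement S01044).
-/

set_option autoImplicit false

open Cardinal

namespace Pool.Agent.Results.MP_0340c4_al.CountableStrongInterval

/-- Partial functions on `A` of arity `n + 1`; the value `none` means undefined. -/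
abbrev PartialFn (A : Type) (n : ℕ) : Type := (Fin (n + 1) → A) → Option A

/-- Total functions on `A` of arity `n + 1`. -/
abbrev TotalFn (A : Type) (n : ℕ) : Type := (Fin (n + 1) → A) → A

/-- Sets of partial functions, sorted by arity. -/
abbrev Family (A : Type) : Type := (n : ℕ) → Set (PartialFn A n)

/-- `h` is the composition `f(g_0, ..., g_n)` of partial functions. -/
def IsComposition {A : Type} {n m : ℕ} (h : PartialFn A m) (f : PartialFn A n)
    (g : Fin (n + 1) → PartialFn A m) : Prop :=
  ∀ x b, h x = some b ↔ ∃ y : Fin (n + 1) → A, (∀ i, g i x = some (y i)) ∧ f y = some b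

/-- Partial clones: sets of partial functions closed under composition that contain all
projections. -/
structure IsPartialClone {A : Type} (X : Family A) : Prop where
  proj : ∀ (n : ℕ) (i : Fin (n + 1)), (fun x : Fin (n + 1) → A => some (x i)) ∈ X n
  comp : ∀ (n m : ℕ) (f : PartialFn A n) (g : Fin (n + 1) → PartialFn A m) (h : PartialFn A m),
    f ∈ X n → (∀ i, g i ∈ X m) → IsComposition h f g → h ∈ X m

/-- `h ≤ f`: the domain of `h` is contained in that of `f` and the functions agree there. -/
def Below {A : Type} {n : ℕ} (h f : PartialFn A n) : Prop := ∀ x b, h x = some b → f x = some b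

/-- Strong sets of partial functions. -/
def IsStrong {A : Type} (X : Family A) : Prop :=
  ∀ (n : ℕ) (f h : PartialFn A n), f ∈ X n → Below h f → h ∈ X n

/-- Total clones. -/
structure IsTotalClone {A : Type} (C : (n : ℕ) → Set (TotalFn A n)) : Prop where
  proj : ∀ (n : ℕ) (i : Fin (n + 1)), (fun x : Fin (n + 1) → A => x i) ∈ C n
  comp : ∀ (n m : ℕ) (f : TotalFn A n) (g : Fin (n + 1) → TotalFn A m),
    f ∈ C n → (∀ i, g i ∈ C m) → (fun x : Fin (m + 1) → A => f (fun i => g i x)) ∈ C m

/-- The total functions in `X` are exactly those in `C`. -/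
def HasTotalPart {A : Type} (X : Family A) (C : (n : ℕ) → Set (TotalFn A n)) : Prop :=
  ∀ (n : ℕ) (f : TotalFn A n), f ∈ C n ↔ (fun x => some (f x)) ∈ X n

/-- The interval `I_D(C)`: the partial clones with total part `C`. -/
def intervalD {A : Type} (C : (n : ℕ) → Set (TotalFn A n)) : Set (Family A) :=
  {X | IsPartialClone X ∧ HasTotalPart X C}

/-- The interval `I_Str(C)`: the strong partial clones with total part `C`. -/
def intervalStr {A : Type} (C : (n : ℕ) → Set (TotalFn A n)) : Set (Family A) :=
  {X | IsPartialClone X ∧ IsStrong X ∧ HasTotalPart X C}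

theorem intervalStr_eq : intervalStr Pool.Agent.TH53.PC.C = Pool.Agent.TH53.PC.Interval := by
  ext X
  constructor
  · rintro ⟨h1, h2, h3⟩
    exact ⟨⟨h1.proj, h1.comp, h2⟩, h3⟩
  · rintro ⟨h1, h3⟩
    exact ⟨⟨h1.proj, h1.comp⟩, h1.restr, h3⟩

/-- There are a finite set `A` with at least three elements and a total clone `C` on `A` such that
the interval `I_Str(C)` is countably infinite; so it is not true that `I_D(C)` and `I_Str(C)` are
both finite or both of cardinality continuum. -/
theorem result :
    ∃ (A : Type) (_ : Fintype A) (C : (n : ℕ) → Set (TotalFn A n)),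
      3 ≤ Fintype.card A ∧ IsTotalClone C ∧
      #(intervalStr C) = ℵ₀ ∧
      ¬ (((intervalD C).Finite ∧ (intervalStr C).Finite) ∨
        (#(intervalD C) = 𝔠 ∧ #(intervalStr C) = 𝔠)) := by
  have hinf : (intervalStr Pool.Agent.TH53.PC.C).Infinite := by
    rw [intervalStr_eq]
    exact Pool.Agent.TH53.PC.interval_infinite
  have hcard : #(intervalStr Pool.Agent.TH53.PC.C) = ℵ₀ := by
    apply le_antisymm
    · rw [intervalStr_eq]
      exact Cardinal.le_aleph0_iff_set_countable.2 Pool.Agent.TH53.PC.interval_countable
    · exact Cardinal.infinite_iff.1 hinf.to_subtype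
  refine ⟨Fin 5, inferInstance, Pool.Agent.TH53.PC.C, by simp,
    ⟨Pool.Agent.TH53.PC.C_proj, Pool.Agent.TH53.PC.C_comp⟩, hcard, ?_⟩
  rintro (⟨-, h⟩ | ⟨-, h⟩)
  · exact hinf h
  · rw [hcard] at h
    exact absurd Cardinal.aleph0_lt_continuum (not_lt.2 h.symm.le)

end Pool.Agent.Results.MP_0340c4_al.CountableStrongInterval
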